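import Mathlib
import Pool.Prelude.Def_F_c31e40fa
import Pool.Agent.H712R2.MultiCoarse2

set_option autoImplicit false

open Complex Set Topology Filter Bornology N62a1eb23

namespace Pool.Agent.Q186.CLC

open Pool.Agent.H712R2

theorem rr_lt_one {n : ℕ} (hn : 2 ≤ n) : rr n < 1 := by
  have h1 : rr n ≤ sr n := by
    unfold rr
    have := pow_nonneg (sr_pos n).le n
    linarith
  linarith [sr_lt_one hn]

/-- A connected subset of the Multibrot set which leaves an open sector contains a point close to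
the foot of the radius through any of its points in the sector. -/
theorem exists_foot {n : ℕ} (hn : 2 ≤ n) (j : ℤ) {z : ℂ}
    (hz : z ∈ Ioi (Real.log (rr n)) ×ℂ Ioo (th n j) (th n (j + 1)))
    {S : Set ℂ} (hS : S ⊆ multibrotSet n) (hSc : IsPreconnected S) (hx : Complex.exp z ∈ S)
    {y : ℂ} (hy : y ∈ S)
    (hyO : y ∉ Complex.exp '' (Ioi (Real.log (rr n)) ×ℂ Ioo (th n j) (th n (j + 1)))) :
    ∃ q ∈ S, dist q (Complex.exp ⟨Real.log (rr n), z.im⟩) ≤ 2 * Real.pi / ((n : ℝ) - 1) := by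
  have hnr : (2:ℝ) ≤ n := by exact_mod_cast hn
  have h0 : 0 < (n:ℝ) - 1 := by linarith
  have hrr := rr_pos hn
  set O : Set ℂ := Complex.exp '' (Ioi (Real.log (rr n)) ×ℂ Ioo (th n j) (th n (j + 1))) with hO
  have hOo : IsOpen O := isOpenMap_exp _ (isOpen_Ioi.reProdIm isOpen_Ioo)
  have hKc : IsCompact (KK n j) := by
    apply Metric.isCompact_of_isClosed_isBounded
    · exact isClosed_Icc.reProdIm isClosed_Icc
    · exact (Metric.isBounded_Icc _ _).reProdIm (Metric.isBounded_Icc _ _)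
  have hKc' : IsClosed (Complex.exp '' (KK n j)) := (hKc.image Complex.continuous_exp).isClosed
  by_contra hcon
  push Not at hcon
  -- no point of `S` on the closed arc
  have harc : ∀ w : ℂ, w.re = Real.log (rr n) → w.im ∈ Icc (th n j) (th n (j + 1)) →
      Complex.exp w ∉ S := by
    intro w hw1 hw2 hwS
    have h1 := hcon _ hwS
    apply absurd h1
    rw [not_lt]
    refine dist_exp_le.trans ?_
    simp only [hw1, sub_self, abs_zero, zero_add, Real.exp_log hrr]
    have h2 : |w.im - z.im| ≤ 2 * Real.pi / ((n : ℝ) - 1) := by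
      rw [← th_sub hn j, abs_le]
      have h3 := hz.2
      simp only [mem_preimage, mem_Ioo] at h3
      constructor <;> linarith [hw2.1, hw2.2, h3.1, h3.2]
    have h3 := rr_lt_one hn
    nlinarith [abs_nonneg (w.im - z.im)]
  have hcov : S ⊆ O ∪ (Complex.exp '' (KK n j))ᶜ := by
    intro s hs
    by_cases hsK : s ∈ Complex.exp '' (KK n j)
    · left
      obtain ⟨w, hw, rfl⟩ := hsK
      have hre : Real.log (rr n) < w.re := by
        rcases (hw.1.1 : Real.log (rr n) ≤ w.re).lt_or_eq with h | h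
        · exact h
        · exact absurd hs (harc w h.symm hw.2)
      have hcusp : ∀ i : ℤ, w.im ≠ th n i := by
        intro i hi
        have h1 : Complex.exp w = Complex.exp ((th n i : ℝ) * I) * ((Real.exp w.re : ℝ) : ℂ) := by
          rw [Complex.ofReal_exp, ← Complex.exp_add]
          congr 1
          apply Complex.ext <;> simp [hi]
        apply cusp_escape hn (t := Real.exp w.re) _ (exp_th_pow hn i)
        · rw [← h1]; exact hS hs
        · rwa [← Real.log_lt_iff_lt_exp hrr]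
      refine ⟨w, ⟨hre, ?_, ?_⟩, rfl⟩
      · exact lt_of_le_of_ne hw.2.1 (fun h => hcusp j h.symm)
      · exact lt_of_le_of_ne hw.2.2 (fun h => hcusp (j + 1) h)
    · right; exact hsK
  have hdisj : S ∩ (O ∩ (Complex.exp '' (KK n j))ᶜ) = ∅ := by
    rw [Set.eq_empty_iff_forall_notMem]
    rintro s ⟨hs, ⟨w, hw, rfl⟩, hsK⟩
    apply hsK
    refine ⟨w, ⟨⟨le_of_lt hw.1, ?_⟩, ⟨hw.2.1.le, hw.2.2.le⟩⟩, rfl⟩
    have h2 := norm_le_two hn (hS hs)
    rw [norm_exp_eq] at h2
    rwa [Real.le_log_iff_exp_le (by norm_num)]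
  have hyK : y ∈ (Complex.exp '' (KK n j))ᶜ := (hcov hy).resolve_left hyO
  obtain ⟨s, hs, hs2⟩ := hSc O _ hOo hKc'.isOpen_compl hcov ⟨_, hx, ⟨z, hz, rfl⟩⟩ ⟨y, hy, hyK⟩
  have : s ∈ S ∩ (O ∩ (Complex.exp '' (KK n j))ᶜ) := ⟨hs, hs2⟩
  rw [hdisj] at this
  exact this

/-- The angle of the `k`-th tip. -/
noncomputable def ang (n k : ℕ) : ℝ := (Real.pi + 2 * Real.pi * k) / ((n : ℝ) - 1)

/-- The `k`-th tip: the centre `c` of a component of period two, `c ^ (n - 1) = -1`. -/
noncomputable def tip (n k : ℕ) : ℂ := Complex.exp ((ang n k : ℝ) * I)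

theorem tip_pow {n : ℕ} (hn : 2 ≤ n) (k : ℕ) : tip n k ^ (n - 1) = -1 := by
  have hnr : (2:ℝ) ≤ n := by exact_mod_cast hn
  have h0 : (n:ℝ) - 1 ≠ 0 := by linarith
  have hn1 : ((n - 1 : ℕ) : ℝ) = (n : ℝ) - 1 := by
    rw [Nat.cast_sub (by omega)]; simp
  unfold tip
  rw [← Complex.exp_nat_mul]
  have h1 : (((n - 1 : ℕ) : ℂ)) * (((ang n k : ℝ) : ℂ) * I) =
      (((((n - 1 : ℕ) : ℝ)) * ang n k : ℝ) : ℂ) * I := by
    push_cast; ring
  have h2 : ((n:ℝ) - 1) * ang n k = Real.pi + 2 * Real.pi * k := by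
    unfold ang; field_simp
  rw [h1, hn1, h2]
  push_cast
  rw [add_mul, Complex.exp_add, Complex.exp_pi_mul_I]
  have h3 : (2 * (Real.pi : ℂ) * k * I) = (k : ℂ) * (2 * Real.pi * I) := by ring
  rw [h3, Complex.exp_nat_mul, Complex.exp_two_pi_mul_I, one_pow, mul_one]

theorem tip_norm (n k : ℕ) : ‖tip n k‖ = 1 := by
  unfold tip
  exact Complex.norm_exp_ofReal_mul_I _

theorem tip_mem {n : ℕ} (hn : 2 ≤ n) (k : ℕ) : tip n k ∈ multibrotSet n := by
  rw [mem_multibrot_iff hn]
  have h2 : tip n k ^ n + tip n k = 0 := by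
    have : tip n k ^ n = tip n k ^ (n - 1) * tip n k := by
      rw [← pow_succ]; congr 1; omega
    rw [this, tip_pow hn]; ring
  have h1 : ∀ m, P n m (tip n k) = 0 ∨ P n m (tip n k) = tip n k := by
    intro m
    induction m with
    | zero => left; exact P_zero _ _
    | succ m ih =>
      rw [P_succ]
      rcases ih with h | h
      · right
        rw [h, zero_pow (by omega), zero_add]
      · left
        rw [h, h2]
  intro m
  rcases h1 m with h | h
  · rw [h, norm_zero]; norm_num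
  · rw [h, tip_norm]; norm_num

end Pool.Agent.Q186.CLC
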