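import Mathlib
import Pool.Agent.Q186.CoarseLC

set_option autoImplicit false

open Complex Set Topology Filter Bornology N62a1eb23

namespace Pool.Agent.Q186.CLC

open Pool.Agent.H712R2

theorem tip_notMem {n : ℕ} (hn : 2 ≤ n) {k : ℕ} (hk : 1 ≤ k) (hk2 : k < n - 1) :
    tip n 0 ∉ Complex.exp '' (Ioi (Real.log (rr n)) ×ℂ Ioo (th n k) (th n (k + 1))) := by
  have hnr : (2:ℝ) ≤ n := by exact_mod_cast hn
  have h0 : 0 < (n:ℝ) - 1 := by linarith
  have hpi := Real.pi_pos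
  rintro ⟨w, hw, hw2⟩
  unfold tip at hw2
  rw [Complex.exp_eq_exp_iff_exists_int] at hw2
  obtain ⟨m, hm⟩ := hw2
  have him : w.im = ang n 0 + 2 * Real.pi * m := by
    rw [hm]
    simp
    ring
  have h1 : th n k < w.im := hw.2.1
  have h2 : w.im < th n (k + 1) := hw.2.2
  rw [him] at h1 h2
  unfold th ang at h1 h2
  rw [div_lt_iff₀ h0] at h1
  rw [lt_div_iff₀ h0] at h2
  have e1 : ((Real.pi + 2 * Real.pi * ((0 : ℕ) : ℝ)) / ((n:ℝ) - 1) + 2 * Real.pi * m) * ((n:ℝ) - 1) =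
      Real.pi + 2 * Real.pi * (m * ((n:ℝ) - 1)) := by
    field_simp
    simp
  rw [e1] at h1 h2
  push_cast at h1 h2
  have h3 : (k:ℝ) < 1 / 2 + m * ((n:ℝ) - 1) := by nlinarith
  have h4 : 1 / 2 + m * ((n:ℝ) - 1) < k + 1 := by nlinarith
  have h5 : ((k:ℤ):ℝ) < ((m * ((n:ℤ) - 1) + 1 : ℤ) : ℝ) := by push_cast; linarith
  have h6 : ((m * ((n:ℤ) - 1) : ℤ) : ℝ) < ((k + 1 : ℤ):ℝ) := by push_cast; linarith
  rw [Int.cast_lt] at h5 h6
  have h7 : (k:ℤ) = m * ((n:ℤ) - 1) := by omega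
  have hk' : (1:ℤ) ≤ k := by exact_mod_cast hk
  have hk2' : (k:ℤ) < (n:ℤ) - 1 := by omega
  have hm0 : 0 < m := by
    by_contra hcon
    push Not at hcon
    nlinarith
  nlinarith

theorem dist_tip (n k : ℕ) (hn : 2 ≤ n) : dist (tip n 0) (tip n k) =
    ‖Complex.exp (I * ((2 * Real.pi * k / ((n:ℝ) - 1) : ℝ) : ℂ)) - 1‖ := by
  have hnr : (2:ℝ) ≤ n := by exact_mod_cast hn
  have h0 : (n:ℝ) - 1 ≠ 0 := by linarith
  rw [dist_comm, dist_eq_norm]
  have h1 : tip n k = tip n 0 * Complex.exp (I * ((2 * Real.pi * k / ((n:ℝ) - 1) : ℝ) : ℂ)) := by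
    unfold tip
    rw [← Complex.exp_add]
    congr 1
    have : ang n k = ang n 0 + 2 * Real.pi * k / ((n:ℝ) - 1) := by
      unfold ang; field_simp; simp
    rw [this]
    push_cast
    ring
  rw [h1]
  have h2 : tip n 0 * Complex.exp (I * ((2 * Real.pi * k / ((n:ℝ) - 1) : ℝ) : ℂ)) - tip n 0 =
      tip n 0 * (Complex.exp (I * ((2 * Real.pi * k / ((n:ℝ) - 1) : ℝ) : ℂ)) - 1) := by ring
  rw [h2, norm_mul, tip_norm, one_mul]

/-- the distance of two tips can be prescribed up to `2 π / (n - 1)` -/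
theorem exists_tip {n : ℕ} (hn : 2 ≤ n) {δ : ℝ} (hδ : 2 * Real.pi / ((n:ℝ) - 1) ≤ δ)
    (hδ2 : δ ≤ 2) : ∃ k : ℕ, 1 ≤ k ∧ k < n - 1 ∧ dist (tip n 0) (tip n k) ≤ δ ∧
      δ - 2 * Real.pi / ((n:ℝ) - 1) ≤ dist (tip n 0) (tip n k) := by
  have hnr : (2:ℝ) ≤ n := by exact_mod_cast hn
  have h0 : 0 < (n:ℝ) - 1 := by linarith
  have hpi := Real.pi_pos
  have hn1 : ((n - 1 : ℕ) : ℝ) = (n : ℝ) - 1 := by
    rw [Nat.cast_sub (by omega)]; simp
  have hδ0 : 0 < δ := lt_of_lt_of_le (by positivity) hδ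
  set A : ℝ := Real.arcsin (δ / 2) with hA
  have hsinA : Real.sin A = δ / 2 := Real.sin_arcsin (by linarith) (by linarith)
  have hA0 : 0 ≤ A := Real.arcsin_nonneg.mpr (by linarith)
  have hA1 : A ≤ Real.pi / 2 := Real.arcsin_le_pi_div_two _
  have hAδ : δ / 2 ≤ A := by
    rw [← hsinA]; exact Real.sin_le hA0
  set k : ℕ := ⌊2 * A * ((n:ℝ) - 1) / (2 * Real.pi)⌋₊ with hk
  have hk1 : (k:ℝ) ≤ 2 * A * ((n:ℝ) - 1) / (2 * Real.pi) := Nat.floor_le (by positivity)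
  have hk2 : 2 * A * ((n:ℝ) - 1) / (2 * Real.pi) < k + 1 := Nat.lt_floor_add_one _
  set α : ℝ := 2 * Real.pi * k / ((n:ℝ) - 1) with hα
  have hα1 : α ≤ 2 * A := by
    rw [hα, div_le_iff₀ h0]
    rw [le_div_iff₀ (by positivity)] at hk1
    linarith
  have hα2 : 2 * A - 2 * Real.pi / ((n:ℝ) - 1) ≤ α := by
    rw [hα]
    rw [div_lt_iff₀ (by positivity)] at hk2
    have : 2 * A ≤ 2 * Real.pi * (k + 1) / ((n:ℝ) - 1) := by
      rw [le_div_iff₀ h0]; linarith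
    have e : 2 * Real.pi * (k + 1) / ((n:ℝ) - 1) = 2 * Real.pi * k / ((n:ℝ) - 1) +
        2 * Real.pi / ((n:ℝ) - 1) := by ring
    linarith
  have hα0 : 0 ≤ α := by positivity
  have hkpos : 1 ≤ k := by
    rw [hk, Nat.one_le_floor_iff, le_div_iff₀ (by positivity)]
    rw [div_le_iff₀ h0] at hδ
    nlinarith
  have hklt : k < n - 1 := by
    have : (k:ℝ) < (n - 1 : ℕ) := by
      rw [hn1]
      refine lt_of_le_of_lt hk1 ?_
      rw [div_lt_iff₀ (by positivity)]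
      nlinarith
    exact_mod_cast this
  have hd : dist (tip n 0) (tip n k) = 2 * Real.sin (α / 2) := by
    rw [dist_tip n k hn, ← hα, Complex.norm_exp_I_mul_ofReal_sub_one, Real.norm_eq_abs, abs_of_nonneg]
    have : 0 ≤ Real.sin (α / 2) := Real.sin_nonneg_of_nonneg_of_le_pi (by linarith) (by linarith)
    linarith
  refine ⟨k, hkpos, hklt, ?_, ?_⟩
  · rw [hd]
    have : Real.sin (α / 2) ≤ Real.sin A :=
      Real.sin_le_sin_of_le_of_le_pi_div_two (by linarith) hA1 (by linarith)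
    linarith
  · have h3 : ‖Complex.exp (I * ((2 * A : ℝ) : ℂ)) - 1‖ = δ := by
      rw [Complex.norm_exp_I_mul_ofReal_sub_one, Real.norm_eq_abs,
        show 2 * A / 2 = A by ring, hsinA, abs_of_nonneg (by linarith)]
      ring
    have h4 : ‖Complex.exp (I * ((2 * A : ℝ) : ℂ)) - Complex.exp (I * ((α : ℝ) : ℂ))‖ ≤ 2 * A - α := by
      have e : Complex.exp (I * ((2 * A : ℝ) : ℂ)) - Complex.exp (I * ((α : ℝ) : ℂ)) =
          Complex.exp ((α : ℝ) * I) * (Complex.exp (I * ((2 * A - α : ℝ) : ℂ)) - 1) := by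
        rw [mul_sub, ← Complex.exp_add, mul_one]
        congr 1
        · congr 1; push_cast; ring
        · congr 1; ring
      rw [e, norm_mul, Complex.norm_exp_ofReal_mul_I, one_mul]
      have := Real.norm_exp_I_mul_ofReal_sub_one_le (x := 2 * A - α)
      rwa [Real.norm_eq_abs, abs_of_nonneg (by linarith)] at this
    rw [dist_tip n k hn, ← hα]
    have h5 : ‖Complex.exp (I * ((2 * A : ℝ) : ℂ)) - 1‖ ≤
        ‖Complex.exp (I * ((2 * A : ℝ) : ℂ)) - Complex.exp (I * ((α : ℝ) : ℂ))‖ +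
        ‖Complex.exp (I * ((α : ℝ) : ℂ)) - 1‖ := by
      have := norm_add_le (Complex.exp (I * ((2 * A : ℝ) : ℂ)) - Complex.exp (I * ((α : ℝ) : ℂ)))
        (Complex.exp (I * ((α : ℝ) : ℂ)) - 1)
      rwa [sub_add_sub_cancel] at this
    linarith

theorem norm_sub_sq_tip (a b : ℂ) (ha : ‖a‖ = 1) (hb : ‖b‖ = 1) (ρ : ℝ) :
    ‖a - (ρ : ℂ) * b‖ ^ 2 = (1 - ρ) ^ 2 + ρ * ‖a - b‖ ^ 2 := by
  have h1 : ‖a‖ ^ 2 = 1 := by rw [ha]; norm_num
  have h2 : ‖b‖ ^ 2 = 1 := by rw [hb]; norm_num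
  rw [← Complex.normSq_eq_norm_sq, Complex.normSq_apply] at h1 h2 ⊢
  rw [← Complex.normSq_eq_norm_sq, Complex.normSq_apply]
  simp only [Complex.sub_re, Complex.sub_im, Complex.mul_re, Complex.mul_im, Complex.ofReal_re,
    Complex.ofReal_im, zero_mul, sub_zero, add_zero]
  linear_combination (1 - ρ) * h1 + (ρ ^ 2 - ρ) * h2

theorem rr_ge {n : ℕ} (hn : 2 ≤ n) : (1 + 1 / ((n:ℝ) - 1)) - rr n ≤ (Real.log n + 4) / n := by
  have hnr : (2:ℝ) ≤ n := by exact_mod_cast hn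
  have h0 : 0 < (n:ℝ) - 1 := by linarith
  have hn0 : 0 < (n:ℝ) := by linarith
  have h1 := sr_ge n
  have h2 : rr n = sr n * (1 - 1 / n) := rr_eq hn
  have h3 : sr n < 1 := sr_lt_one hn
  have h4 : 1 / ((n:ℝ) - 1) ≤ 2 / n := by
    rw [div_le_div_iff₀ h0 hn0]; linarith
  have h5 : Real.log n / ((n:ℝ) - 1) ≤ (Real.log n + 1) / n := by
    rw [div_le_div_iff₀ h0 hn0]
    have := Real.log_le_sub_one_of_pos hn0
    nlinarith
  have h6 : sr n * (1 / n) ≤ 1 / n := by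
    have : 0 ≤ 1 / (n:ℝ) := by positivity
    nlinarith
  have e1 : (Real.log n + 4) / n = (Real.log n + 1) / n + 2 / n + 1 / n := by ring
  rw [h2, e1]
  nlinarith

theorem rr_le {n : ℕ} (hn : 2 ≤ n) : Real.log n / n - 8 / n ≤ 1 - rr n := by
  have hnr : (2:ℝ) ≤ n := by exact_mod_cast hn
  have h0 : 0 < (n:ℝ) - 1 := by linarith
  have hn0 : 0 < (n:ℝ) := by linarith
  have hlog : 0 ≤ Real.log n := Real.log_nonneg (by linarith)
  set L : ℝ := Real.log n / ((n:ℝ) - 1) with hL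
  have hL0 : 0 ≤ L := by positivity
  have h1 : rr n ≤ sr n := by
    unfold rr
    have := pow_nonneg (sr_pos n).le n
    linarith
  have h2 : sr n ≤ 1 - L + L ^ 2 / 2 := by
    unfold sr
    rw [← hL]
    have h3 := Real.quadratic_le_exp_of_nonneg hL0
    rw [Real.exp_neg]
    have h4 : 0 < 1 + L + L ^ 2 / 2 := by positivity
    calc (Real.exp L)⁻¹ ≤ (1 + L + L ^ 2 / 2)⁻¹ := inv_anti₀ h4 h3
      _ ≤ 1 - L + L ^ 2 / 2 := by
        rw [inv_le_iff_one_le_mul₀ h4]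
        nlinarith [pow_nonneg hL0 4]
  have h5 : Real.log n / n ≤ L := by
    rw [hL]
    exact div_le_div_of_nonneg_left hlog h0 (by linarith)
  have h6 : L ^ 2 ≤ 16 / n := by
    have h7 : Real.log n ≤ 2 * Real.sqrt n := by
      have h8 : Real.log n = 2 * Real.log (Real.sqrt n) := by
        rw [Real.log_sqrt hn0.le]; ring
      have h9 := Real.log_le_sub_one_of_pos (Real.sqrt_pos.mpr hn0)
      linarith
    have h8 : Real.log n ^ 2 ≤ 4 * n := by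
      have := pow_le_pow_left₀ hlog h7 2
      rw [mul_pow, Real.sq_sqrt hn0.le] at this
      linarith
    rw [hL, div_pow, div_le_div_iff₀ (by positivity) hn0]
    have h9 : (n:ℝ) ≤ 2 * (n - 1) := by linarith
    have h10 : (n:ℝ) ^ 2 ≤ 4 * (n - 1) ^ 2 := by nlinarith
    nlinarith
  have e : (16:ℝ) / n = 2 * (8 / n) := by ring
  linarith

end Pool.Agent.Q186.CLC
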