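import Mathlib
import Pool.Agent.Q186.CoarseLC2

set_option autoImplicit false

open Complex Set Topology Filter Bornology N62a1eb23

namespace Pool.Agent.Q186.CLC

open Pool.Agent.H712R2

/-- reverse triangle inequality in the plane -/
theorem sqrt_sub_le {a b a' b' : ℝ} :
    √(a ^ 2 + b ^ 2) ≤ √(a' ^ 2 + b' ^ 2) + |a - a'| + |b - b'| := by
  have h1 : ∀ x y : ℝ, √(x ^ 2 + y ^ 2) = ‖(⟨x, y⟩ : ℂ)‖ := by
    intro x y
    rw [← Complex.norm_add_mul_I]
    congr 1
    apply Complex.ext <;> simp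
  rw [h1, h1]
  have h2 : (⟨a, b⟩ : ℂ) = ⟨a', b'⟩ + ((⟨a - a', 0⟩ : ℂ) + ⟨0, b - b'⟩) := by
    apply Complex.ext <;> simp
  rw [h2]
  have h3 : ‖(⟨a - a', 0⟩ : ℂ)‖ = |a - a'| := by
    have : (⟨a - a', 0⟩ : ℂ) = ((a - a' : ℝ) : ℂ) := by apply Complex.ext <;> simp
    rw [this, Complex.norm_real, Real.norm_eq_abs]
  have h4 : ‖(⟨0, b - b'⟩ : ℂ)‖ = |b - b'| := by
    have : (⟨0, b - b'⟩ : ℂ) = ((b - b' : ℝ) : ℂ) * I := by apply Complex.ext <;> simp
    rw [this, norm_mul, Complex.norm_I, mul_one, Complex.norm_real, Real.norm_eq_abs]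
  have h5 := norm_add_le (⟨a', b'⟩ : ℂ) ((⟨a - a', 0⟩ : ℂ) + ⟨0, b - b'⟩)
  have h6 := norm_add_le (⟨a - a', 0⟩ : ℂ) (⟨0, b - b'⟩ : ℂ)
  linarith

theorem lower {n : ℕ} (hn : 2 ≤ n) {δ : ℝ} (hδ : 2 * Real.pi / ((n:ℝ) - 1) ≤ δ)
    (hδ2 : δ ≤ 2) : ∃ x ∈ multibrotSet n, ∃ y ∈ multibrotSet n, dist x y ≤ δ ∧
      ∀ S ⊆ multibrotSet n, IsPreconnected S → x ∈ S → y ∈ S →
        √(δ ^ 2 + (Real.log n / n) ^ 2) - 34 * (1 + δ * Real.log n) / n ≤ Metric.diam S := by
  have hnr : (2:ℝ) ≤ n := by exact_mod_cast hn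
  have h0 : 0 < (n:ℝ) - 1 := by linarith
  have hn0 : 0 < (n:ℝ) := by linarith
  have hpi := Real.pi_pos
  have hpi2 : Real.pi < 3.15 := Real.pi_lt_d2
  have hrr := rr_pos hn
  have hrr1 := rr_lt_one hn
  have hδ0 : 0 < δ := lt_of_lt_of_le (by positivity) hδ
  have hlog : 0 < Real.log n := Real.log_pos (by linarith)
  have hlog2 : 0.69 ≤ Real.log n := by
    have h1 := Real.log_two_gt_d9
    have h2 : Real.log 2 ≤ Real.log n := Real.log_le_log (by norm_num) hnr
    linarith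
  obtain ⟨k, hk1, hk2, hk3, hk4⟩ := exists_tip hn hδ hδ2
  refine ⟨tip n 0, tip_mem hn 0, tip n k, tip_mem hn k, hk3, ?_⟩
  intro S hS hSc hx hy
  have hbd : Bornology.IsBounded S := (isCompact_multibrot hn).isBounded.subset hS
  have hz : (⟨0, ang n k⟩ : ℂ) ∈ Ioi (Real.log (rr n)) ×ℂ Ioo (th n k) (th n (k + 1)) := by
    refine ⟨?_, ?_, ?_⟩
    · simp only [mem_preimage, mem_Ioi]
      exact Real.log_neg hrr hrr1
    · simp only
      unfold th ang
      apply div_lt_div_of_pos_right _ h0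
      push_cast
      linarith
    · simp only
      unfold th ang
      apply div_lt_div_of_pos_right _ h0
      push_cast
      linarith
  have hexp : Complex.exp ⟨0, ang n k⟩ = tip n k := by
    unfold tip
    congr 1
    apply Complex.ext <;> simp
  obtain ⟨q, hq, hq2⟩ := exists_foot hn k hz hS hSc (by rw [hexp]; exact hy) hx
    (tip_notMem hn hk1 hk2)
  have hfoot : Complex.exp ⟨Real.log (rr n), ang n k⟩ = (rr n : ℂ) * tip n k := by
    unfold tip
    have h1 : (rr n : ℂ) = Complex.exp ((Real.log (rr n) : ℝ) : ℂ) := by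
      rw [← Complex.ofReal_exp, Real.exp_log hrr]
    rw [h1, ← Complex.exp_add]
    congr 1
    apply Complex.ext <;> simp
  rw [hfoot] at hq2
  have h1 : dist (tip n 0) q ≤ Metric.diam S := Metric.dist_le_diam_of_mem hbd hx hq
  have h2 : dist (tip n 0) ((rr n : ℂ) * tip n k) ≤ dist (tip n 0) q + 2 * Real.pi / ((n:ℝ) - 1) :=
    (dist_triangle _ q _).trans (by linarith)
  set d := dist (tip n 0) (tip n k) with hd
  have hd0 : 0 ≤ d := dist_nonneg
  have h3 : dist (tip n 0) ((rr n : ℂ) * tip n k) = √((1 - rr n) ^ 2 + (√(rr n) * d) ^ 2) := by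
    rw [mul_pow, Real.sq_sqrt hrr.le, hd, dist_eq_norm, dist_eq_norm,
      ← norm_sub_sq_tip _ _ (tip_norm n 0) (tip_norm n k), Real.sqrt_sq (norm_nonneg _)]
  rw [h3] at h2
  have h4 : √((Real.log n / n) ^ 2 + δ ^ 2) ≤ √((1 - rr n) ^ 2 + (√(rr n) * d) ^ 2) +
      |Real.log n / n - (1 - rr n)| + |δ - √(rr n) * d| := sqrt_sub_le
  have h5 := rr_ge hn
  have h6 := rr_le hn
  have h7 : 0 < 1 / ((n:ℝ) - 1) := by positivity
  have h8 : |Real.log n / n - (1 - rr n)| ≤ 8 / n := by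
    rw [abs_le]
    have e : (Real.log n + 4) / n = Real.log n / n + 4 / n := by ring
    have e2 : (8:ℝ) / n = 4 / n + 4 / n := by ring
    have e3 : 0 < (4:ℝ) / n := by positivity
    constructor <;> linarith
  have h9 : 1 - rr n ≤ 7 * Real.log n / n := by
    have e : (Real.log n + 4) / n ≤ 7 * Real.log n / n := by
      apply div_le_div_of_nonneg_right _ hn0.le
      linarith
    linarith
  have h10 : rr n ≤ √(rr n) := by
    apply Real.le_sqrt_of_sq_le
    nlinarith
  have h11 : √(rr n) ≤ 1 := by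
    rw [Real.sqrt_le_left (by norm_num)]
    norm_num
    exact hrr1.le
  have h12 : |δ - √(rr n) * d| ≤ 7 * Real.log n / n * δ + 2 * Real.pi / ((n:ℝ) - 1) := by
    rw [abs_le]
    have e1 : √(rr n) * d ≤ δ := by nlinarith
    have e2 : 0 ≤ 7 * Real.log n / n * δ := by positivity
    have e3 : 0 < 2 * Real.pi / ((n:ℝ) - 1) := by positivity
    have e4 : d - √(rr n) * d ≤ 7 * Real.log n / n * δ := by
      have : (1 - √(rr n)) * d ≤ (7 * Real.log n / n) * δ := by
        apply mul_le_mul _ hk3 hd0 (by positivity)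
        linarith
      linarith
    constructor <;> linarith
  have h13 : 2 * Real.pi / ((n:ℝ) - 1) ≤ 13 / n := by
    rw [div_le_div_iff₀ h0 hn0]
    nlinarith
  have h14 : √(δ ^ 2 + (Real.log n / n) ^ 2) = √((Real.log n / n) ^ 2 + δ ^ 2) := by
    rw [add_comm]
  rw [h14]
  have e5 : 34 * (1 + δ * Real.log n) / n = 8 / n + 13 / n + 13 / n + 7 * Real.log n / n * δ +
      27 * Real.log n / n * δ := by ring
  have e6 : 0 ≤ 27 * Real.log n / n * δ := by positivity
  linarith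

/-- the radial projection to the inner disc -/
noncomputable def ft (n : ℕ) (x : ℂ) : ℂ :=
  if ‖x‖ ≤ rr n then x else ((rr n / ‖x‖ : ℝ) : ℂ) * x

theorem ft_norm {n : ℕ} (hn : 2 ≤ n) (x : ℂ) : ‖ft n x‖ ≤ rr n := by
  unfold ft
  split_ifs with h
  · exact h
  · push Not at h
    have hrr := rr_pos hn
    have : 0 < ‖x‖ := hrr.trans h
    rw [norm_mul, Complex.norm_real, Real.norm_eq_abs, abs_of_pos (by positivity),
      div_mul_cancel₀ _ this.ne']

/-- variational inequality for the projection -/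
theorem ft_var {n : ℕ} (hn : 2 ≤ n) (x w : ℂ) (hw : ‖w‖ ≤ rr n) :
    inner ℝ (x - ft n x) (w - ft n x) ≤ 0 := by
  have hrr := rr_pos hn
  unfold ft
  split_ifs with h
  · simp
  · push Not at h
    have hx : 0 < ‖x‖ := hrr.trans h
    set a : ℝ := rr n / ‖x‖ with ha
    have ha0 : 0 < a := by positivity
    have ha1 : a < 1 := by rw [ha, div_lt_one hx]; exact h
    have e1 : x - (a : ℂ) * x = (1 - a) • x := by
      rw [sub_smul, one_smul]; rfl
    have e2 : (a : ℂ) * x = a • x := rfl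
    rw [e1, e2, inner_smul_left, inner_sub_right, inner_smul_right]
    have e3 : inner ℝ x w ≤ ‖x‖ * ‖w‖ := real_inner_le_norm x w
    have e4 : inner ℝ x x = ‖x‖ ^ 2 := real_inner_self_eq_norm_sq x
    have e5 : a * ‖x‖ ^ 2 = rr n * ‖x‖ := by rw [ha]; field_simp
    have e6 : ‖x‖ * ‖w‖ ≤ ‖x‖ * rr n := by gcongr
    rw [e4]
    simp only [conj_trivial]
    have e7 : inner ℝ x w - a * ‖x‖ ^ 2 ≤ 0 := by rw [e5]; linarith
    exact mul_nonpos_of_nonneg_of_nonpos (by linarith) e7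

theorem ft_dist {n : ℕ} (hn : 2 ≤ n) (x y : ℂ) : ‖ft n x - ft n y‖ ≤ ‖x - y‖ := by
  have h1 := ft_var hn x (ft n y) (ft_norm hn y)
  have h2 := ft_var hn y (ft n x) (ft_norm hn x)
  set a := ft n x
  set b := ft n y
  have h3 : inner ℝ (x - y) (a - b) ≤ ‖x - y‖ * ‖a - b‖ := real_inner_le_norm _ _
  have h4 : ‖a - b‖ ^ 2 ≤ inner ℝ (x - y) (a - b) := by
    rw [← real_inner_self_eq_norm_sq]
    have e1 : inner ℝ (x - a) (b - a) = - inner ℝ (x - a) (a - b) := by
      rw [← inner_neg_right, neg_sub]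
    rw [e1] at h1
    have e2 : inner ℝ (x - y) (a - b) = inner ℝ (x - a) (a - b) + inner ℝ (a - b) (a - b) -
        inner ℝ (y - b) (a - b) := by
      rw [← inner_add_left, ← inner_sub_left]
      congr 1
      ring
    linarith
  by_contra hcon
  push Not at hcon
  nlinarith [norm_nonneg (x - y), norm_nonneg (a - b)]

/-- every point of the Multibrot set lies in a connected piece close to a radial segment -/
theorem exists_piece2 {n : ℕ} (hn : 2 ≤ n) {x : ℂ} (hx : x ∈ multibrotSet n) :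
    ∃ V : Set ℂ, IsPreconnected V ∧ V ⊆ multibrotSet n ∧ x ∈ V ∧ ft n x ∈ V ∧
      ∀ v ∈ V, ∃ s : ℝ, 0 ≤ s ∧ s * rr n ≤ (1 + 1 / ((n:ℝ) - 1)) - rr n ∧
        ‖v - ((1 + s : ℝ) : ℂ) * ft n x‖ ≤ 2 * (2 * Real.pi / ((n:ℝ) - 1)) := by
  have hnr : (2:ℝ) ≤ n := by exact_mod_cast hn
  have h0 : 0 < (n:ℝ) - 1 := by linarith
  have hrr := rr_pos hn
  have hrr1 := rr_lt_one hn
  have hpi := Real.pi_pos
  have h7 : 0 < 1 / ((n:ℝ) - 1) := by positivity
  by_cases hxr : ‖x‖ ≤ rr n
  · refine ⟨{x}, isPreconnected_singleton, by simpa using hx, rfl, ?_, ?_⟩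
    · unfold ft; rw [if_pos hxr]; rfl
    · rintro v rfl
      refine ⟨0, le_rfl, by linarith, ?_⟩
      unfold ft; rw [if_pos hxr]
      simp
      positivity
  · have hxr' := hxr
    push Not at hxr'
    have hxpos : 0 < ‖x‖ := lt_trans hrr hxr'
    have hx0 : x ≠ 0 := norm_pos_iff.mp hxpos
    set z := Complex.log x with hz
    have hexpz : Complex.exp z = x := Complex.exp_log hx0
    have hzre : z.re = Real.log ‖x‖ := Complex.log_re x
    set j : ℤ := ⌊z.im * ((n:ℝ) - 1) / (2 * Real.pi)⌋ with hj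
    have hj1 : th n j ≤ z.im := by
      have := Int.floor_le (z.im * ((n:ℝ) - 1) / (2 * Real.pi))
      rw [← hj, le_div_iff₀ (by positivity)] at this
      unfold th
      rw [div_le_iff₀ h0]
      linarith
    have hj2 : z.im ≤ th n (j + 1) := by
      have := (Int.lt_floor_add_one (z.im * ((n:ℝ) - 1) / (2 * Real.pi))).le
      rw [← hj, div_le_iff₀ (by positivity)] at this
      unfold th
      rw [le_div_iff₀ h0]
      push_cast
      linarith
    have hrr2 : Real.log (rr n) ≤ Real.log 2 := Real.log_le_log hrr (by linarith)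
    have hft : ft n x = Complex.exp ⟨Real.log (rr n), z.im⟩ := by
      unfold ft
      rw [if_neg hxr]
      have e1 : ((rr n / ‖x‖ : ℝ) : ℂ) = Complex.exp ((Real.log (rr n) - z.re : ℝ) : ℂ) := by
        rw [← Complex.ofReal_exp, Real.exp_sub, Real.exp_log hrr, hzre, Real.exp_log hxpos]
      rw [e1, ← hexpz, ← Complex.exp_add]
      congr 1
      apply Complex.ext <;> simp
    refine ⟨multibrotSet n ∩ Complex.exp '' (KK n j), conn_piece hn j, inter_subset_left,
      ⟨hx, z, ⟨⟨?_, ?_⟩, ⟨hj1, hj2⟩⟩, hexpz⟩, ⟨disc_subset hn (ft_norm hn x), ?_⟩, ?_⟩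
    · rw [hzre]; exact Real.log_le_log hrr hxr'.le
    · rw [hzre]; exact Real.log_le_log hxpos (norm_le_two hn hx)
    · rw [hft]
      exact ⟨(⟨Real.log (rr n), z.im⟩ : ℂ), ⟨⟨le_rfl, hrr2⟩, ⟨hj1, hj2⟩⟩, rfl⟩
    · rintro _ ⟨haM, a, ha, rfl⟩
      have hRa := norm_le_outer hn haM
      have ha2 := norm_le_two hn haM
      rw [norm_exp_eq] at hRa ha2
      have hra : rr n ≤ Real.exp a.re := by
        rw [← Real.exp_log hrr]; exact Real.exp_le_exp.mpr ha.1.1
      refine ⟨Real.exp a.re / rr n - 1, ?_, ?_, ?_⟩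
      · rw [sub_nonneg, one_le_div hrr]; exact hra
      · rw [sub_mul, div_mul_cancel₀ _ hrr.ne', one_mul]
        linarith
      · have e1 : (((1 + (Real.exp a.re / rr n - 1) : ℝ)) : ℂ) * ft n x =
            Complex.exp ⟨a.re, z.im⟩ := by
          rw [hft]
          have e2 : ((1 + (Real.exp a.re / rr n - 1) : ℝ) : ℂ) =
              Complex.exp ((a.re - Real.log (rr n) : ℝ) : ℂ) := by
            rw [← Complex.ofReal_exp, Real.exp_sub, Real.exp_log hrr]
            congr 1; ring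
          rw [e2, ← Complex.exp_add]
          congr 1
          apply Complex.ext <;> simp
        rw [e1, ← dist_eq_norm]
        refine dist_exp_le.trans ?_
        simp only [sub_self, abs_zero, zero_add]
        apply mul_le_mul ha2 _ (abs_nonneg _) (by norm_num)
        rw [← th_sub hn j, abs_le]
        have ha3 : th n j ≤ a.im := ha.2.1
        have ha4 : a.im ≤ th n (j + 1) := ha.2.2
        constructor <;> linarith

theorem quarter_le {n : ℕ} (hn : 2 ≤ n) : 1 / 4 ≤ rr n := by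
  have hnr : (2:ℝ) ≤ n := by exact_mod_cast hn
  have h0 : 0 < (n:ℝ) - 1 := by linarith
  rw [rr_eq hn]
  have h1 : (1:ℝ) / 2 ≤ 1 - 1 / n := by
    have : 1 / (n:ℝ) ≤ 1 / 2 := one_div_le_one_div_of_le (by norm_num) hnr
    linarith
  have h2 : (1:ℝ) / 2 ≤ sr n := by
    unfold sr
    have h3 : Real.log n ≤ (n - 1) * Real.log 2 := by
      have h4 : (n:ℝ) ≤ 2 ^ (n - 1) := by
        have : n ≤ 2 ^ (n - 1) := by
          have := Nat.lt_two_pow_self (n := n - 1)
          omega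
        exact_mod_cast this
      have h5 := Real.log_le_log (by linarith) h4
      rw [Real.log_pow, Nat.cast_sub (by omega)] at h5
      simpa using h5
    have h4 : Real.log n / (n - 1) ≤ Real.log 2 := by
      rw [div_le_iff₀ h0]; linarith
    have h5 : Real.exp (-Real.log 2) = 1 / 2 := by
      rw [Real.exp_neg, Real.exp_log (by norm_num)]; norm_num
    rw [← h5]
    apply Real.exp_le_exp.mpr
    linarith
  nlinarith [sr_pos n]

theorem upper {n : ℕ} (hn : 2 ≤ n) {x y : ℂ} (hx : x ∈ multibrotSet n)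
    (hy : y ∈ multibrotSet n) :
    ∃ S ⊆ multibrotSet n, IsCompact S ∧ IsConnected S ∧ x ∈ S ∧ y ∈ S ∧
      Metric.diam S ≤ (1 + 28 * Real.log n / n) * dist x y + (Real.log n + 56) / n := by
  obtain ⟨V, hVp, hVM, hxV, hx'V, hVd⟩ := exists_piece2 hn hx
  obtain ⟨W, hWp, hWM, hyW, hy'W, hWd⟩ := exists_piece2 hn hy
  have hnr : (2:ℝ) ≤ n := by exact_mod_cast hn
  have h0 : 0 < (n:ℝ) - 1 := by linarith
  have hn0 : 0 < (n:ℝ) := by linarith
  have hrr := rr_pos hn
  have hrr1 := rr_lt_one hn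
  have hpi := Real.pi_pos
  have hpi2 : Real.pi < 3.15 := Real.pi_lt_d2
  have hlog : 0 < Real.log n := Real.log_pos (by linarith)
  have hlog2 : 0.69 ≤ Real.log n := by
    have h1 := Real.log_two_gt_d9
    have h2 : Real.log 2 ≤ Real.log n := Real.log_le_log (by norm_num) hnr
    linarith
  set G : ℝ := (1 + 1 / ((n:ℝ) - 1)) - rr n with hG
  have hG0 : 0 < G := by
    have : 0 < 1 / ((n:ℝ) - 1) := by positivity
    rw [hG]; linarith
  have hG1 : G ≤ (Real.log n + 4) / n := rr_ge hn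
  set ε : ℝ := 2 * (2 * Real.pi / ((n:ℝ) - 1)) with hε
  have hε1 : ε ≤ 26 / n := by
    have h13 : 2 * Real.pi / ((n:ℝ) - 1) ≤ 13 / n := by
      rw [div_le_div_iff₀ h0 hn0]
      nlinarith
    have : (26:ℝ) / n = 2 * (13 / n) := by ring
    rw [hε, this]; linarith
  have hε0 : 0 < ε := by positivity
  set x' := ft n x with hx'
  set y' := ft n y with hy'
  have hx'r : ‖x'‖ ≤ rr n := ft_norm hn x
  have hy'r : ‖y'‖ ≤ rr n := ft_norm hn y
  have hxy' : ‖x' - y'‖ ≤ dist x y := by rw [dist_eq_norm]; exact ft_dist hn x y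
  have hxy0 : 0 ≤ dist x y := dist_nonneg
  -- the basic estimate
  have basic : ∀ a b : ℂ, ‖a‖ ≤ rr n → ‖b‖ ≤ rr n → ‖a - b‖ ≤ dist x y → ∀ s t : ℝ, 0 ≤ s → 0 ≤ t →
      s * rr n ≤ G → t * rr n ≤ G →
      ‖((1 + s : ℝ) : ℂ) * a - ((1 + t : ℝ) : ℂ) * b‖ ≤ (1 + 4 * G) * dist x y + G := by
    have key : ∀ a b : ℂ, ‖a‖ ≤ rr n → ‖a - b‖ ≤ dist x y → ∀ s t : ℝ, t ≤ s → 0 ≤ t →
        s * rr n ≤ G → t * rr n ≤ G →
        ‖((1 + s : ℝ) : ℂ) * a - ((1 + t : ℝ) : ℂ) * b‖ ≤ (1 + 4 * G) * dist x y + G := by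
      intro a b ha hab s t hst ht hs hG2
      have e1 : ((1 + s : ℝ) : ℂ) * a - ((1 + t : ℝ) : ℂ) * b =
          ((s - t : ℝ) : ℂ) * a + ((1 + t : ℝ) : ℂ) * (a - b) := by push_cast; ring
      rw [e1]
      refine (norm_add_le _ _).trans ?_
      rw [norm_mul, norm_mul, Complex.norm_real, Complex.norm_real, Real.norm_eq_abs,
        Real.norm_eq_abs, abs_of_nonneg (by linarith), abs_of_nonneg (by linarith)]
      have e2 : (s - t) * ‖a‖ ≤ G := by nlinarith [norm_nonneg a]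
      have e3 : t ≤ 4 * G := by
        have := quarter_le hn
        nlinarith
      have e4 : (1 + t) * ‖a - b‖ ≤ (1 + 4 * G) * dist x y :=
        mul_le_mul (by linarith) hab (norm_nonneg _) (by linarith)
      linarith
    intro a b ha hb hab s t hs ht hs2 ht2
    rcases le_total t s with h | h
    · exact key a b ha hab s t h ht hs2 ht2
    · rw [norm_sub_rev]
      exact key b a hb (by rw [norm_sub_rev]; exact hab) t s h hs ht2 hs2
  set B : ℝ := (1 + 4 * G) * dist x y + G + 2 * ε with hB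
  have hB0 : 0 ≤ B := by positivity
  have hgen : ∀ a b u v : ℂ, ‖u - a‖ ≤ ε → ‖v - b‖ ≤ ε → ‖a - b‖ ≤ (1 + 4 * G) * dist x y + G →
      dist u v ≤ B := by
    intro a b u v h1 h2 h3
    rw [dist_eq_norm]
    have e : u - v = (u - a) + (a - b) + (b - v) := by ring
    rw [e]
    refine (norm_add₃_le).trans ?_
    rw [norm_sub_rev b v]
    linarith
  have hVV : ∀ u ∈ V, ∀ v ∈ V, dist u v ≤ B := by
    intro u hu v hv
    obtain ⟨s, hs, hs2, hs3⟩ := hVd u hu
    obtain ⟨t, ht, ht2, ht3⟩ := hVd v hv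
    exact hgen _ _ u v hs3 ht3 (basic x' x' hx'r hx'r (by simp) s t hs ht hs2 ht2)
  have hWW : ∀ u ∈ W, ∀ v ∈ W, dist u v ≤ B := by
    intro u hu v hv
    obtain ⟨s, hs, hs2, hs3⟩ := hWd u hu
    obtain ⟨t, ht, ht2, ht3⟩ := hWd v hv
    exact hgen _ _ u v hs3 ht3 (basic y' y' hy'r hy'r (by simp) s t hs ht hs2 ht2)
  have hVW : ∀ u ∈ V, ∀ v ∈ W, dist u v ≤ B := by
    intro u hu v hv
    obtain ⟨s, hs, hs2, hs3⟩ := hVd u hu
    obtain ⟨t, ht, ht2, ht3⟩ := hWd v hv
    exact hgen _ _ u v hs3 ht3 (basic x' y' hx'r hy'r hxy' s t hs ht hs2 ht2)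
  set L : Set ℂ := segment ℝ x' y' with hL
  have hLM : L ⊆ multibrotSet n := by
    intro c hc
    apply disc_subset hn
    have h1 : L ⊆ Metric.closedBall (0:ℂ) (rr n) :=
      (convex_closedBall (0:ℂ) (rr n)).segment_subset (by simpa using hx'r) (by simpa using hy'r)
    simpa using h1 hc
  have hLp : IsPreconnected L := (convex_segment x' y').isPreconnected
  -- distances to points of the segment
  have hseg : ∀ u : ℂ, dist u x' ≤ B → dist u y' ≤ B → ∀ v ∈ L, dist u v ≤ B := by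
    intro u h1 h2 v hv
    have h3 : L ⊆ Metric.closedBall u B :=
      (convex_closedBall u B).segment_subset (by rw [Metric.mem_closedBall, dist_comm]; exact h1)
        (by rw [Metric.mem_closedBall, dist_comm]; exact h2)
    have h4 := h3 hv
    rw [Metric.mem_closedBall, dist_comm] at h4
    exact h4
  have hVL : ∀ u ∈ V, ∀ v ∈ L, dist u v ≤ B := fun u hu =>
    hseg u (hVV u hu x' hx'V) (hVW u hu y' hy'W)
  have hWL : ∀ u ∈ W, ∀ v ∈ L, dist u v ≤ B := fun u hu =>
    hseg u (by rw [dist_comm]; exact hVW x' hx'V u hu) (hWW u hu y' hy'W)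
  have hLL : ∀ u ∈ L, ∀ v ∈ L, dist u v ≤ B := fun u hu =>
    hseg u (by rw [dist_comm]; exact hVL x' hx'V u hu) (by rw [dist_comm]; exact hWL y' hy'W u hu)
  set S0 : Set ℂ := (V ∪ L) ∪ W with hS0
  have hS0M : S0 ⊆ multibrotSet n := union_subset (union_subset hVM hLM) hWM
  have hS0p : IsPreconnected S0 := by
    apply IsPreconnected.union y'
    · exact Or.inr (right_mem_segment ℝ x' y')
    · exact hy'W
    · exact IsPreconnected.union x' hx'V (left_mem_segment ℝ x' y') hVp hLp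
    · exact hWp
  have hdiam : ∀ a ∈ S0, ∀ b ∈ S0, dist a b ≤ B := by
    intro a ha b hb
    rcases ha with (ha | ha) | ha <;> rcases hb with (hb | hb) | hb
    · exact hVV a ha b hb
    · exact hVL a ha b hb
    · exact hVW a ha b hb
    · rw [dist_comm]; exact hVL b hb a ha
    · exact hLL a ha b hb
    · rw [dist_comm]; exact hWL b hb a ha
    · rw [dist_comm]; exact hVW b hb a ha
    · exact hWL a ha b hb
    · exact hWW a ha b hb
  have hclM : closure S0 ⊆ multibrotSet n :=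
    (isCompact_multibrot hn).isClosed.closure_subset_iff.mpr hS0M
  refine ⟨closure S0, hclM, ?_, ⟨⟨x, subset_closure (Or.inl (Or.inl hxV))⟩, hS0p.closure⟩,
    subset_closure (Or.inl (Or.inl hxV)), subset_closure (Or.inr hyW), ?_⟩
  · exact (isCompact_multibrot hn).of_isClosed_subset isClosed_closure hclM
  · rw [Metric.diam_closure]
    refine (Metric.diam_le_of_forall_dist_le hB0 hdiam).trans ?_
    rw [hB]
    have e1 : 4 * G ≤ 28 * Real.log n / n := by
      have : (Real.log n + 4) / n ≤ 7 * Real.log n / n := by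
        apply div_le_div_of_nonneg_right _ hn0.le
        linarith
      have e2 : 28 * Real.log n / n = 4 * (7 * Real.log n / n) := by ring
      rw [e2]; linarith
    have e3 : (Real.log n + 56) / n = (Real.log n + 4) / n + 2 * (26 / n) := by ring
    have e4 : (1 + 4 * G) * dist x y ≤ (1 + 28 * Real.log n / n) * dist x y :=
      mul_le_mul_of_nonneg_right (by linarith) hxy0
    rw [e3]
    linarith

end Pool.Agent.Q186.CLC
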