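import Pool.Agent.Y736.HL6
import Pool.Agent.Y736.HD9

set_option autoImplicit false

/-! # Parabolic parameters: Green's function, harmonic measure, and the modulus of continuity of the
Carathéodory loop -/

namespace Pool.Agent.Q186.Par

open Complex Metric Set Filter Topology MeasureTheory Pool.Agent.H712R2 Pool.Agent.H713R2 N62a1eb23
open Pool.Agent.Y736 Pool.Agent.Y736.HD Pool.Agent.Y736.HL

/-- harmonic measure of discs about a parameter with bounded derivatives -/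
theorem vol_bound {c₀ : ℂ} (hc₀ : c₀ ∈ multibrotSet 2) {C : ℝ}
    (hD : ∀ m n, m ≤ n → LL c₀ m n ≤ C) :
    ∃ A : ℝ, 0 < A ∧ ∀ ψ : ℂ → ℂ, IsExteriorMap (multibrotSet 2) ψ →
      (∀ w : ℂ, 1 < ‖w‖ → ‖w‖ ≤ 2 → Real.log ‖w‖ ≤ 12 * Real.exp (-(A / √‖ψ w - c₀‖))) ∧
      ∀ r : ℝ, 0 < r → r ≤ 1 → (volume (Ang ψ c₀ r)).toReal ≤ Real.exp (-(A / √r)) / A := by
  obtain ⟨A₀, hA₀, hup⟩ := upper_exp hc₀ hD
  obtain ⟨δ₀, hδ₀, hg⟩ := green_cont hc₀ (Real.log_pos (by norm_num : (1 : ℝ) < 2))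
  have hlog2 : 0 < Real.log 2 := Real.log_pos (by norm_num)
  have hpi := Real.pi_pos
  obtain ⟨s, hs⟩ : ∃ s, s = √(δ₀ / 2) := ⟨_, rfl⟩
  have hs0 : 0 < s := by rw [hs]; positivity
  -- the constant
  obtain ⟨A, hA, hA1, hA2, hA3, hA4⟩ : ∃ A : ℝ, 0 < A ∧ A ≤ A₀ / 2 ∧
      A * (24 * Real.pi / Real.log 2) ≤ 1 ∧ A * (2 * Real.pi * Real.exp 1) ≤ 1 ∧ A ≤ s := by
    refine ⟨min (min (A₀ / 2) (1 / (24 * Real.pi / Real.log 2)))
      (min (1 / (2 * Real.pi * Real.exp 1)) s), by positivity, ?_, ?_, ?_, ?_⟩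
    · exact (min_le_left _ _).trans (min_le_left _ _)
    · rw [← le_div_iff₀ (by positivity)]
      exact (min_le_left _ _).trans (min_le_right _ _)
    · rw [← le_div_iff₀ (by positivity)]
      exact (min_le_right _ _).trans (min_le_left _ _)
    · exact (min_le_right _ _).trans (min_le_right _ _)
  refine ⟨A, hA, fun ψ hψ => ⟨fun w hw hw2 => ?_, fun r hr0 hr1 => ?_⟩⟩
  · have h1 := Real.log_le_sub_one_of_pos (show 0 < ‖w‖ by linarith)
    have h2 := hup ψ hψ w hw hw2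
    refine h1.trans (h2.trans ?_)
    have h3 : A / √‖ψ w - c₀‖ ≤ A₀ / √‖ψ w - c₀‖ := by
      apply div_le_div_of_nonneg_right _ (Real.sqrt_nonneg _)
      linarith
    have h4 := Real.exp_le_exp.2 (neg_le_neg h3)
    linarith
  · rcases le_or_gt (2 * r) δ₀ with h | h
    · have h1 := vol_le hψ hc₀ hr0 (S := 12 * Real.exp (-(A₀ / √(2 * r)))) (by positivity)
        (fun w hw hwr => by
          have h2 := hg ψ hψ w hw (hwr.trans h)
          have h3 : ‖w‖ ≤ 2 := by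
            rwa [Real.log_le_log_iff (by linarith) (by norm_num)] at h2
          have h4 := Real.log_le_sub_one_of_pos (show 0 < ‖w‖ by linarith)
          have h5 := hup ψ hψ w hw h3
          refine h4.trans (h5.trans ?_)
          have h6 : 0 < ‖ψ w - c₀‖ :=
            norm_pos_iff.2 (sub_ne_zero.2 (psi_ne hψ hc₀ hw))
          have h7 : A₀ / √(2 * r) ≤ A₀ / √‖ψ w - c₀‖ := by
            apply div_le_div_of_nonneg_left hA₀.le (Real.sqrt_pos.2 h6)
            exact Real.sqrt_le_sqrt hwr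
          have h8 := Real.exp_le_exp.2 (neg_le_neg h7)
          linarith)
      refine h1.trans ?_
      rw [le_div_iff₀ hA]
      have h2 : A / √r ≤ A₀ / √(2 * r) := by
        rw [div_le_div_iff₀ (Real.sqrt_pos.2 hr0) (Real.sqrt_pos.2 (by positivity)),
          Real.sqrt_mul (by norm_num)]
        have h3 : √2 ≤ 2 := by
          rw [Real.sqrt_le_left (by norm_num)]
          norm_num
        have h4 := Real.sqrt_nonneg r
        calc A * (√2 * √r) ≤ A₀ / 2 * (2 * √r) := by gcongr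
          _ = A₀ * √r := by ring
      have h3 := Real.exp_le_exp.2 (neg_le_neg h2)
      calc 2 * Real.pi * (12 * Real.exp (-(A₀ / √(2 * r)))) / Real.log 2 * A
          = A * (24 * Real.pi / Real.log 2) * Real.exp (-(A₀ / √(2 * r))) := by ring
        _ ≤ 1 * Real.exp (-(A / √r)) := by gcongr
        _ = _ := one_mul _
    · have h1 : (volume (Ang ψ c₀ r)).toReal ≤ 2 * Real.pi := by
        have h2 : volume (Ang ψ c₀ r) ≤ volume (Ioc 0 (2 * Real.pi)) :=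
          measure_mono (Ang_sub ψ c₀ r)
        rw [Real.volume_Ioc, sub_zero] at h2
        exact ENNReal.toReal_le_of_le_ofReal (by positivity) h2
      refine h1.trans ?_
      rw [le_div_iff₀ hA]
      have h2 : A / √r ≤ 1 := by
        rw [div_le_one (Real.sqrt_pos.2 hr0)]
        refine hA4.trans ?_
        rw [hs]
        exact Real.sqrt_le_sqrt (by linarith)
      have h3 : Real.exp (-1) ≤ Real.exp (-(A / √r)) := Real.exp_le_exp.2 (neg_le_neg h2)
      refine le_trans ?_ h3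
      rw [Real.exp_neg, ← one_div, le_div_iff₀ (Real.exp_pos 1)]
      linarith

/-- the points of the circle near an angle whose image is close to the value at the angle -/
theorem arc_sub {ψ F : ℂ → ℂ} (hF : ContinuousOn F {w | 1 ≤ ‖w‖}) (hE : ∀ w, 1 < ‖w‖ → F w = ψ w)
    {θ : ℝ} : Tendsto (fun ρ : ℝ => ψ (ρ * exp (θ * I))) (𝓝[>] 1) (𝓝 (F (exp (θ * I)))) := by
  have h1 : ContinuousWithinAt F {w | 1 ≤ ‖w‖} (exp (θ * I)) :=
    hF _ (by
      show 1 ≤ ‖exp (θ * I)‖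
      rw [Complex.norm_exp_ofReal_mul_I])
  have h2 : Tendsto (fun ρ : ℝ => (ρ : ℂ) * exp (θ * I)) (𝓝[>] 1)
      (𝓝[{w | 1 ≤ ‖w‖}] (exp (θ * I))) := by
    rw [tendsto_nhdsWithin_iff]
    refine ⟨?_, ?_⟩
    · have h3 : Continuous fun ρ : ℝ => (ρ : ℂ) * exp (θ * I) := by fun_prop
      have h4 := (h3.tendsto 1).mono_left (nhdsWithin_le_nhds (s := Ioi (1 : ℝ)))
      simpa using h4
    · filter_upwards [self_mem_nhdsWithin] with ρ hρ
      have hρ' : 1 < ρ := hρ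
      show 1 ≤ ‖(ρ : ℂ) * exp (θ * I)‖
      rw [norm_mul, Complex.norm_exp_ofReal_mul_I, mul_one, Complex.norm_real,
        Real.norm_of_nonneg (by linarith)]
      exact hρ'.le
  refine (h1.tendsto.comp h2).congr' ?_
  filter_upwards [self_mem_nhdsWithin] with ρ hρ
  have hρ' : 1 < ρ := hρ
  apply hE
  rw [norm_mul, Complex.norm_exp_ofReal_mul_I, mul_one, Complex.norm_real,
    Real.norm_of_nonneg (by linarith)]
  exact hρ'

/-- an arc of the circle which is mapped into a small disc has small length -/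
theorem arc_le {ψ F : ℂ → ℂ} (hF : ContinuousOn F {w | 1 ≤ ‖w‖}) (hE : ∀ w, 1 < ‖w‖ → F w = ψ w)
    {ζ : ℂ} (hζ : ‖ζ‖ = 1) {δ ρ : ℝ} (hδ0 : 0 < δ) (hδ1 : δ ≤ 1 / 2)
    (h : ∀ ξ : ℂ, ‖ξ‖ = 1 → ‖ξ - ζ‖ ≤ δ → ‖F ξ - F ζ‖ < ρ) :
    δ ≤ (volume (Ang ψ (F ζ) ρ)).toReal := by
  have hpi := Real.pi_gt_three
  obtain ⟨θ₀, hθ₀, hθζ⟩ : ∃ θ₀ : ℝ, θ₀ ∈ Ioc 0 (2 * Real.pi) ∧ exp (θ₀ * I) = ζ := by
    have h1 : exp ((arg ζ : ℝ) * I) = ζ := by
      have := Complex.norm_mul_exp_arg_mul_I ζ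
      rwa [hζ, ofReal_one, one_mul] at this
    rcases le_or_gt (arg ζ) 0 with h2 | h2
    · refine ⟨arg ζ + 2 * Real.pi, ⟨?_, by linarith⟩, ?_⟩
      · have := Complex.neg_pi_lt_arg ζ
        linarith
      · push_cast
        rw [add_mul, Complex.exp_add, Complex.exp_two_pi_mul_I, mul_one]
        exact h1
    · exact ⟨arg ζ, ⟨h2, by linarith [Complex.arg_le_pi ζ]⟩, h1⟩
  have key : ∀ θ : ℝ, |θ - θ₀| ≤ δ → θ ∈ Ioc 0 (2 * Real.pi) → θ ∈ Ang ψ (F ζ) ρ := by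
    intro θ hθ hθ2
    refine ⟨hθ2, F (exp (θ * I)), ?_, arc_sub hF hE⟩
    rw [mem_ball, dist_eq_norm]
    apply h
    · exact Complex.norm_exp_ofReal_mul_I θ
    · rw [← hθζ]
      have h1 : exp (θ * I) - exp (θ₀ * I) = exp (θ₀ * I) * (exp (I * ((θ - θ₀ : ℝ) : ℂ)) - 1) := by
        rw [mul_sub, ← Complex.exp_add, mul_one]
        congr 2
        push_cast
        ring
      rw [h1, norm_mul, Complex.norm_exp_ofReal_mul_I, one_mul]
      refine (Real.norm_exp_I_mul_ofReal_sub_one_le).trans ?_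
      rwa [Real.norm_eq_abs]
  have hsub : ∃ a : ℝ, Ioc a (a + δ) ⊆ Ang ψ (F ζ) ρ := by
    rcases le_or_gt δ θ₀ with h1 | h1
    · refine ⟨θ₀ - δ, fun θ hθ => key θ ?_ ?_⟩
      · rw [abs_le]
        constructor <;> linarith [hθ.1, hθ.2]
      · exact ⟨by linarith [hθ.1], by linarith [hθ.2, hθ₀.2]⟩
    · refine ⟨θ₀, fun θ hθ => key θ ?_ ?_⟩
      · rw [abs_le]
        constructor <;> linarith [hθ.1, hθ.2]
      · exact ⟨by linarith [hθ.1, hθ₀.1], by linarith [hθ.2]⟩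
  obtain ⟨a, ha⟩ := hsub
  have h2 := measure_mono (μ := volume) ha
  rw [Real.volume_Ioc, add_sub_cancel_left] at h2
  have h3 := ENNReal.toReal_mono (vol_Ang_ne ψ (F ζ) ρ) h2
  rwa [ENNReal.toReal_ofReal hδ0.le] at h3

/-- **The main estimate.** -/
theorem main {c₀ : ℂ} (hc₀ : c₀ ∈ multibrotSet 2) {C : ℝ}
    (hD : ∀ m n, m ≤ n → LL c₀ m n ≤ C) :
    ∃ A : ℝ, 0 < A ∧ ∀ ψ : ℂ → ℂ, IsExteriorMap (multibrotSet 2) ψ →
      (∀ w : ℂ, 1 < ‖w‖ → ‖w‖ ≤ 2 → Real.log ‖w‖ ≤ 12 * Real.exp (-(A / √‖ψ w - c₀‖))) ∧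
      (∀ r : ℝ, 0 < r → r ≤ 1 → (volume (Ang ψ c₀ r)).toReal ≤ Real.exp (-(A / √r)) / A) ∧
      ∀ F : ℂ → ℂ, ContinuousOn F {w | 1 ≤ ‖w‖} → (∀ w, 1 < ‖w‖ → F w = ψ w) →
        ∀ ζ : ℂ, ‖ζ‖ = 1 → F ζ = c₀ → ∀ δ : ℝ, 0 < δ → δ ≤ 1 / 2 →
          ∃ ξ : ℂ, ‖ξ‖ = 1 ∧ ‖ξ - ζ‖ ≤ δ ∧ A / Real.log (1 / δ) ^ 2 ≤ ‖F ξ - F ζ‖ := by
  obtain ⟨A, hA, h⟩ := vol_bound hc₀ hD
  have hlog2 : 0 < Real.log 2 := Real.log_pos (by norm_num)
  -- the exponent `m`
  obtain ⟨m, hm2, hmA, hmL⟩ : ∃ m : ℕ, 2 ≤ m ∧ ((1 : ℝ) / 2) ^ (m - 1) < A ∧ A / m ≤ Real.log 2 := by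
    obtain ⟨n, hn⟩ := exists_pow_lt_of_lt_one hA (by norm_num : (1 : ℝ) / 2 < 1)
    obtain ⟨k, hk⟩ := exists_nat_gt (A / Real.log 2)
    refine ⟨n + k + 2, by omega, ?_, ?_⟩
    · refine lt_of_le_of_lt ?_ hn
      exact pow_le_pow_of_le_one (by norm_num) (by norm_num) (by omega)
    · rw [div_le_iff₀ (by positivity)]
      rw [div_lt_iff₀ hlog2] at hk
      push_cast
      have : (0 : ℝ) ≤ n := Nat.cast_nonneg n
      nlinarith
  have hm0 : (0 : ℝ) < m := by exact_mod_cast (by omega : 0 < m)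
  refine ⟨min A ((A / m) ^ 2), by positivity, fun ψ hψ => ⟨fun w hw hw2 => ?_, fun r hr0 hr1 => ?_,
    fun F hF hE ζ hζ hFζ δ hδ0 hδ1 => ?_⟩⟩
  · refine ((h ψ hψ).1 w hw hw2).trans ?_
    have h3 : min A ((A / m) ^ 2) / √‖ψ w - c₀‖ ≤ A / √‖ψ w - c₀‖ :=
      div_le_div_of_nonneg_right (min_le_left _ _) (Real.sqrt_nonneg _)
    have h4 := Real.exp_le_exp.2 (neg_le_neg h3)
    linarith
  · refine ((h ψ hψ).2 r hr0 hr1).trans ?_
    have h3 : min A ((A / m) ^ 2) / √r ≤ A / √r :=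
      div_le_div_of_nonneg_right (min_le_left _ _) (Real.sqrt_nonneg _)
    exact div_le_div₀ (Real.exp_pos _).le (Real.exp_le_exp.2 (neg_le_neg h3)) (by positivity)
      (min_le_left _ _)
  · by_contra hcon
    push Not at hcon
    have hL : Real.log 2 ≤ Real.log (1 / δ) := by
      apply Real.log_le_log (by norm_num)
      rw [le_div_iff₀ hδ0]
      linarith
    obtain ⟨L, hLdef⟩ : ∃ L, L = Real.log (1 / δ) := ⟨_, rfl⟩
    rw [← hLdef] at hL
    have hL0 : 0 < L := by linarith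
    obtain ⟨ρ, hρ⟩ : ∃ ρ : ℝ, ρ = (A / m / L) ^ 2 := ⟨_, rfl⟩
    have hρ0 : 0 < ρ := by rw [hρ]; positivity
    have hρ1 : ρ ≤ 1 := by
      rw [hρ]
      apply pow_le_one₀ (by positivity)
      rw [div_le_one hL0]
      linarith
    have h1 : δ ≤ (volume (Ang ψ (F ζ) ρ)).toReal := by
      apply arc_le hF hE hζ hδ0 hδ1
      intro ξ hξ1 hξ2
      refine (hcon ξ hξ1 hξ2).trans_le ?_
      rw [hρ, div_pow (A / m) L 2, ← hLdef]
      apply div_le_div_of_nonneg_right (min_le_right _ _) (by positivity)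
    rw [hFζ] at h1
    have h2 := (h ψ hψ).2 ρ hρ0 hρ1
    have h3 : √ρ = A / m / L := by rw [hρ, Real.sqrt_sq (by positivity)]
    have h4 : A / √ρ = m * L := by
      rw [h3]
      field_simp
    have h5 : Real.exp (-(m * L)) = δ ^ m := by
      have : -(m * L) = m * Real.log δ := by
        rw [hLdef, one_div, Real.log_inv]
        ring
      rw [this, Real.exp_nat_mul, Real.exp_log hδ0]
    rw [h4, h5] at h2
    have h6 : δ * A ≤ δ ^ m := by
      have := h1.trans h2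
      rwa [le_div_iff₀ hA] at this
    obtain ⟨k, rfl⟩ : ∃ k, m = k + 1 := ⟨m - 1, by omega⟩
    rw [pow_succ, mul_comm δ A] at h6
    have h7 : A ≤ δ ^ k := le_of_mul_le_mul_right h6 hδ0
    have h8 : δ ^ k ≤ (1 / 2) ^ k := pow_le_pow_left₀ hδ0.le hδ1 k
    simp only [Nat.add_sub_cancel] at hmA
    linarith

/-- the cusp `1 / 4` -/
theorem quarter_orbit : Tendsto (fun k => P 2 (1 * k) (1 / 4 : ℂ)) atTop (𝓝 (1 / 2 : ℂ)) := by
  obtain ⟨a, ha⟩ : ∃ a : ℕ → ℝ, a = fun k => (fun x : ℝ => x ^ 2 + 1 / 4)^[k] 0 := ⟨_, rfl⟩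
  have ha0 : a 0 = 0 := by rw [ha]; rfl
  have has : ∀ k, a (k + 1) = a k ^ 2 + 1 / 4 := by
    intro k
    rw [ha]
    simp only [Function.iterate_succ_apply']
  have hP : ∀ k, P 2 (1 * k) (1 / 4 : ℂ) = (a k : ℂ) := by
    intro k
    rw [one_mul]
    induction k with
    | zero => rw [P_zero, ha0, ofReal_zero]
    | succ k ih =>
      rw [P_succ, ih, has]
      push_cast
      ring
  have hb : ∀ k, 0 ≤ a k ∧ a k ≤ 1 / 2 := by
    intro k
    induction k with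
    | zero => rw [ha0]; norm_num
    | succ k ih =>
      rw [has]
      constructor
      · positivity
      · nlinarith [ih.1, ih.2]
  have hmono : Monotone a := by
    apply monotone_nat_of_le_succ
    intro k
    rw [has]
    nlinarith [sq_nonneg (a k - 1 / 2)]
  have hbd : BddAbove (range a) := ⟨1 / 2, by rintro _ ⟨k, rfl⟩; exact (hb k).2⟩
  have hlim := tendsto_atTop_ciSup hmono hbd
  obtain ⟨L, hL⟩ : ∃ L, L = ⨆ i, a i := ⟨_, rfl⟩
  rw [← hL] at hlim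
  have h1 : Tendsto (fun k => a (k + 1)) atTop (𝓝 L) := hlim.comp (tendsto_add_atTop_nat 1)
  have h2 : Tendsto (fun k => a (k + 1)) atTop (𝓝 (L ^ 2 + 1 / 4)) := by
    simp only [has]
    exact (hlim.pow 2).add_const _
  have h3 := tendsto_nhds_unique h1 h2
  have h4 : L = 1 / 2 := by nlinarith [sq_nonneg (L - 1 / 2)]
  rw [h4] at hlim
  have h5 : Tendsto (fun k => (a k : ℂ)) atTop (𝓝 ((1 / 2 : ℝ) : ℂ)) :=
    (continuous_ofReal.tendsto _).comp hlim
  simp only [hP]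
  convert h5 using 2
  push_cast
  rfl

theorem mem_of_lim {c z₀ : ℂ} {N : ℕ} (hN : 1 ≤ N)
    (h : Tendsto (fun k => P 2 (N * k) c) atTop (𝓝 z₀)) : c ∈ multibrotSet 2 := by
  intro ht
  have h2 : Tendsto (fun k => P 2 k c) atTop (Bornology.cobounded ℂ) := ht
  have h3 : Tendsto (fun k : ℕ => N * k) atTop atTop :=
    tendsto_atTop_mono (fun k => Nat.le_mul_of_pos_left k hN) tendsto_id
  exact h.not_tendsto (Metric.disjoint_nhds_cobounded z₀) (h2.comp h3)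

/-- real parameters larger than `1 / 4` escape -/
theorem escape {c : ℝ} (hc : 1 / 4 < c) : (c : ℂ) ∉ multibrotSet 2 := by
  intro h
  apply h
  obtain ⟨a, ha⟩ : ∃ a : ℕ → ℝ, a = fun k => (fun x : ℝ => x ^ 2 + c)^[k] 0 := ⟨_, rfl⟩
  have ha0 : a 0 = 0 := by rw [ha]; rfl
  have has : ∀ k, a (k + 1) = a k ^ 2 + c := by
    intro k
    rw [ha]
    simp only [Function.iterate_succ_apply']
  have hP : ∀ k, (fun z : ℂ => z ^ 2 + (c : ℂ))^[k] 0 = (a k : ℂ) := by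
    intro k
    induction k with
    | zero => rw [ha0, ofReal_zero]; rfl
    | succ k ih =>
      rw [Function.iterate_succ_apply', ih, has]
      push_cast
      ring
  have hb : ∀ k : ℕ, (c - 1 / 4) * k ≤ a k := by
    intro k
    induction k with
    | zero => rw [ha0]; simp
    | succ k ih =>
      rw [has]
      push_cast
      nlinarith [sq_nonneg (a k - 1 / 2)]
  have h1 : Tendsto a atTop atTop := by
    refine tendsto_atTop_mono hb ?_
    exact (tendsto_natCast_atTop_atTop).const_mul_atTop (by linarith)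
  have h2 : Tendsto (fun k => ‖(fun z : ℂ => z ^ 2 + (c : ℂ))^[k] 0‖) atTop atTop := by
    refine tendsto_atTop_mono (fun k => ?_) h1
    rw [hP, Complex.norm_real]
    exact le_abs_self _
  exact tendsto_norm_atTop_iff_cobounded.1 h2

theorem quarter_closure : (1 / 4 : ℂ) ∈ closure (multibrotSet 2)ᶜ := by
  rw [Metric.mem_closure_iff]
  intro ε hε
  refine ⟨((1 / 4 + ε / 2 : ℝ) : ℂ), escape (by linarith), ?_⟩
  rw [dist_eq_norm]
  have : (1 / 4 : ℂ) - ((1 / 4 + ε / 2 : ℝ) : ℂ) = ((-(ε / 2) : ℝ) : ℂ) := by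
    push_cast
    ring
  rw [this, Complex.norm_real, Real.norm_eq_abs, abs_neg, abs_of_pos (by linarith)]
  linarith

/-- the root `-3 / 4` of the component of period two -/
theorem root_orbit : Tendsto (fun k => P 2 (2 * k) (-3 / 4 : ℂ)) atTop (𝓝 (-1 / 2 : ℂ)) := by
  obtain ⟨a, ha⟩ : ∃ a : ℕ → ℝ, a = fun k => (fun x : ℝ => (x ^ 2 - 3 / 4) ^ 2 - 3 / 4)^[k] 0 :=
    ⟨_, rfl⟩
  have ha0 : a 0 = 0 := by rw [ha]; rfl
  have has : ∀ k, a (k + 1) = (a k ^ 2 - 3 / 4) ^ 2 - 3 / 4 := by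
    intro k
    rw [ha]
    simp only [Function.iterate_succ_apply']
  have hP : ∀ k, P 2 (2 * k) (-3 / 4 : ℂ) = (a k : ℂ) := by
    intro k
    induction k with
    | zero => rw [mul_zero, P_zero, ha0, ofReal_zero]
    | succ k ih =>
      rw [show 2 * (k + 1) = 2 * k + 1 + 1 by ring, P_succ, P_succ, ih, has]
      push_cast
      ring
  have hb : ∀ k, -1 / 2 ≤ a k ∧ a k ≤ 0 := by
    intro k
    induction k with
    | zero => rw [ha0]; norm_num
    | succ k ih =>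
      rw [has]
      have h1 : a k ^ 2 ≤ 1 / 4 := by nlinarith [ih.1, ih.2]
      have h2 : 0 ≤ a k ^ 2 := sq_nonneg _
      constructor <;> nlinarith
  have hstep : ∀ x : ℝ, (x ^ 2 - 3 / 4) ^ 2 - 3 / 4 - x = (x + 1 / 2) ^ 3 * (x - 3 / 2) := by
    intro x
    ring
  have hmono : Antitone a := by
    apply antitone_nat_of_succ_le
    intro k
    have h1 := hstep (a k)
    have h2 : 0 ≤ (a k + 1 / 2) ^ 3 := by
      have := (hb k).1
      apply pow_nonneg
      linarith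
    have h3 : a k - 3 / 2 ≤ 0 := by linarith [(hb k).2]
    have h4 := mul_nonpos_of_nonneg_of_nonpos h2 h3
    rw [has]
    linarith
  have hbd : BddBelow (range a) := ⟨-1 / 2, by rintro _ ⟨k, rfl⟩; exact (hb k).1⟩
  have hlim := tendsto_atTop_ciInf hmono hbd
  obtain ⟨L, hL⟩ : ∃ L, L = ⨅ i, a i := ⟨_, rfl⟩
  rw [← hL] at hlim
  have h1 : Tendsto (fun k => a (k + 1)) atTop (𝓝 L) := hlim.comp (tendsto_add_atTop_nat 1)
  have h2 : Tendsto (fun k => a (k + 1)) atTop (𝓝 ((L ^ 2 - 3 / 4) ^ 2 - 3 / 4)) := by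
    simp only [has]
    exact (((hlim.pow 2).sub_const _).pow 2).sub_const _
  have h3 := tendsto_nhds_unique h1 h2
  have h0 : L ≤ 0 := le_of_tendsto' hlim fun k => (hb k).2
  have h4 : L = -1 / 2 := by
    have h5 := hstep L
    rw [← h3, sub_self] at h5
    rcases mul_eq_zero.1 h5.symm with h6 | h6
    · have := pow_eq_zero_iff (three_ne_zero) |>.1 h6
      linarith
    · linarith
  rw [h4] at hlim
  have h5 : Tendsto (fun k => (a k : ℂ)) atTop (𝓝 ((-1 / 2 : ℝ) : ℂ)) :=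
    (continuous_ofReal.tendsto _).comp hlim
  simp only [hP]
  convert h5 using 2
  push_cast
  rfl

end Pool.Agent.Q186.Par
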